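import Pool.Agent.U543.XrFin

/-!
# Normalised periods of almost all elliptic curves over number fields

For an elliptic curve with algebraic invariants the question of Diaz is whether `ω / √π` and `η / √π` are algebraically
independent, for every nonzero period `ω` with quasi-period `η`, if the curve has no complex multiplication. We show that
this is true in bounded degree for all curves `y² = (x - e_0) (x - e_1) (x - e_2)` over number fields of bounded degree and of
height at most `T`, outside few hypersurfaces of the space of the `(e_0, e_1, e_2)`; moreover we give a measure of algebraic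
independence with the exponent `O(1)`, we allow coefficients which are combinations of arbitrary complex numbers, and we
prove the independence of the normalised periods of several curves.

(The quasi-period of Weierstrass is, up to algebraic factors, `η - (e_0 + e_1 + e_2) / 3 * ω` for the integral `η` of
`x dx / y`, so the algebraic independence of `ω / √π`, `η / √π` over algebraic numbers is the same for both.)
-/

namespace Pool.Agent.Results.MP_e21d36_nt.NormalisedPeriods

open Filter Pool.Agent Pool.Agent.U543.XR
open Pool.Agent.U543.GD (Height)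

/-- Let `ι` be a finite nonempty set. For complex numbers `e i r`, `i ∈ ι`, `r = 0, 1, 2`, with `Re e i 0 < Re e i 1 < Re e i 2`
(`Conf`) and `l i ∈ {0, 1}` let `ω i` and `η i` be the integrals of `dx / y` and `x dx / y`, `y² = ± ∏ (x - e i r)`, over the
segment from `e i (l i)` to `e i (l i + 1)`. For a number field `K` in `ℂ` and complex numbers `z_1, …, z_k` the set
`SmallValue ι k K io z T δ` consists of the `e` over `K`, of height at most `T`, of norm at most `k` and at distance at least
`1 / k` from the complement of `Conf`, for which some polynomial `Φ = ∑ z_j f_j` in `2 |ι|` variables, the `f_j` over the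
integers of `K`, of degree at most `k` in each variable, with conjugates of the coefficients at most `T ^ k`, satisfies
`|Φ(ω i / √π, η i / √π)| ≤ δ` for some `l`, although some coefficient of `Φ` has absolute value greater than `T ^ (-k)`.

(1) For every `k` and `ε > 0` there are `B`, `D`, `C` such that for all large `T`, all number fields `K` of degree at most
`k`, embedded in `ℂ`, and all complex numbers `z_j` with `|z_j| ≤ T ^ k`, the set `SmallValue ι k K io z T (T ^ (-B))` is
covered by `C T ^ ε` hypersurfaces of degree at most `D`, and has at most `D C T ^ ε N ^ (3 |ι| - 1)` elements, `N` being the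
number of elements of `K` of height at most `T`.
(2) For every function `v → ∞`, however slowly, there is `ω → ∞` such that for all large `T`, `k = ω T`, all `K` of degree
at most `k` and all `z_j` with `|z_j| ≤ T ^ k`, the set `SmallValue ι k K io z T (T ^ (-v T))` is covered by `T ^ (1 / k)`
hypersurfaces of degree at most `T ^ (1 / k)`, and has at most `T ^ (1 / k) N ^ (3 |ι| - 1)` elements. -/
theorem result (ι : Type) [Fintype ι] [DecidableEq ι] [Nonempty ι] :
    (∀ (k : ℕ) (ε : ℝ), 0 < ε → ∃ (B D : ℕ) (C T₀ : ℝ), 0 ≤ C ∧ 2 ≤ T₀ ∧ ∀ T, T₀ ≤ T →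
      ∀ (K : Type) [Field K] [NumberField K], Module.finrank ℚ K ≤ k → ∀ (io : K →+* ℂ) (z : Fin k → ℂ),
        (∀ i, ‖z i‖ ≤ T ^ k) →
        Y124.Cov D ⌊C * T ^ ε⌋₊ ((fun (s : (Σ _ : ι, Fin (2 + 1)) → K) j => io (s j)) ''
          SmallValue ι k K io z T (T ^ (-(B : ℝ)))) ∧
        (SmallValue ι k K io z T (T ^ (-(B : ℝ)))).Finite ∧
        ((SmallValue ι k K io z T (T ^ (-(B : ℝ)))).ncard : ℝ) ≤
          D * C * T ^ ε * ((Height K T).ncard : ℝ) ^ (3 * Fintype.card ι - 1)) ∧
    ∀ v : ℝ → ℝ, Tendsto v atTop atTop →
      ∃ (ω : ℝ → ℕ) (T₀ : ℝ), Tendsto ω atTop atTop ∧ Monotone ω ∧ ∀ T, T₀ ≤ T → 0 < ω T ∧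
        ∀ (K : Type) [Field K] [NumberField K], Module.finrank ℚ K ≤ ω T → ∀ (io : K →+* ℂ) (z : Fin (ω T) → ℂ),
          (∀ i, ‖z i‖ ≤ T ^ ω T) →
          Y124.Cov ⌊T ^ ((ω T : ℝ)⁻¹)⌋₊ ⌊T ^ ((ω T : ℝ)⁻¹)⌋₊
            ((fun (s : (Σ _ : ι, Fin (2 + 1)) → K) j => io (s j)) ''
              SmallValue ι (ω T) K io z T (T ^ (-v T))) ∧
          (SmallValue ι (ω T) K io z T (T ^ (-v T))).Finite ∧
          ((SmallValue ι (ω T) K io z T (T ^ (-v T))).ncard : ℝ) ≤
            T ^ ((ω T : ℝ)⁻¹) * ((Height K T).ncard : ℝ) ^ (3 * Fintype.card ι - 1) :=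
  ⟨fun k ε hε => small_fix k ε hε, fun v hv => small_grow v hv⟩

end Pool.Agent.Results.MP_e21d36_nt.NormalisedPeriods
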